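import Mathlib
import Pool.Agent.X257.PS.Main
import Pool.Agent.W672.FK.Lowf
import Pool.Agent.W307.RT.Tors
import Pool.Agent.Y679.Cr.Conv
import Pool.Agent.Y679.Cr.Dens

/-!
# The parity of the rank and the 2-isogeny Selmer groups, in the ordering by the conductor

All elliptic curves over `ℚ` with full rational 2-torsion are ordered by the conductor, without any
bound on the height or on the discriminant. For a positive proportion of them the rank is zero and,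
for every equation `y² = x³ + a x² + b x` of the curve with integers `a`, `b` (that is, for all the
three 2-isogenies of the curve), `f₂ = 0` and the number `f₁ + f₂` of the problem is even: the
question has a positive answer for all the equations of these curves.

The starting file `PositiveProportionParity` has the orderings by the height and by the minimal
discriminant.
-/

set_option autoImplicit false

namespace Pool.Agent.Results.MP_e2b281_nt.ConductorOrdering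

open Finset Filter Topology

/-- the curve `y² = x³ + A x + B` over `ℚ` -/
def E (A B : ℤ) : WeierstrassCurve ℚ := ⟨0, 0, 0, (A : ℚ), (B : ℚ)⟩

/-- The prime-to-6 part of the conductor of `y² = x³ + A x + B` (there is no prime `p` with `p⁴ ∣ A`
and `p⁶ ∣ B`): the product over the primes `p ≥ 5` dividing `4 A³ + 27 B²` of `p` (multiplicative
reduction: `p ∤ A`) or `p²` (additive reduction: `p ∣ A`) -/
def Cond6 (c : ℤ × ℤ) : ℕ :=
  ∏ p ∈ (Int.natAbs (4 * c.1 ^ 3 + 27 * c.2 ^ 2)).primeFactors.filter (fun p => 5 ≤ p),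
    if (p : ℤ) ∣ c.1 then p ^ 2 else p

/-- the admissible factors: functions with values between `1` and `2 ^ 8 * 3 ^ 5`, for instance the
part of the conductor composed of the primes 2 and 3, or `g = 1` -/
def Factor (g : ℤ × ℤ → ℕ) : Prop := ∀ c, 1 ≤ g c ∧ g c ≤ 2 ^ 8 * 3 ^ 5

/-- The pairs `(A, B)` of integers such that `4 A³ + 27 B² ≠ 0`, there is no prime `p` with
`p⁴ ∣ A` and `p⁶ ∣ B`, `Z/2 x Z/2` embeds in the group of the rational points of
`y² = x³ + A x + B`, and `g * Cond6 ≤ Z` (for a suitable factor `g`: the conductor is at most `Z`).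
Every elliptic curve over `ℚ` with full rational 2-torsion is isomorphic to `E A B` for exactly one
pair with the first three properties. -/
def Fam (g : ℤ × ℤ → ℕ) (Z : ℕ) : Set (ℤ × ℤ) :=
  {c : ℤ × ℤ | 4 * c.1 ^ 3 + 27 * c.2 ^ 2 ≠ 0 ∧
    (∀ p : ℕ, p.Prime → ¬ ((p : ℤ) ^ 4 ∣ c.1 ∧ (p : ℤ) ^ 6 ∣ c.2)) ∧
    (∃ f : ZMod 2 × ZMod 2 →+ (E c.1 c.2).toAffine.Point, Function.Injective f) ∧
    g c * Cond6 c ≤ Z}

/-- the proportion of the curves of `S` among the curves of size at most `Z` -/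
noncomputable def proportion (g : ℤ × ℤ → ℕ) (S : Set (ℤ × ℤ)) (Z : ℕ) : ℝ :=
  ((Fam g Z ∩ S).ncard : ℝ) / (Fam g Z).ncard

/-- the curve `y² = x³ + a x² + b x` over `ℚ` -/
def Eab (a b : ℤ) : WeierstrassCurve ℚ := ⟨0, (a : ℚ), 0, (b : ℚ), 0⟩

/-- The squarefree integers `b₁ ∣ b` (of both signs) for which
`N² = b₁ M⁴ + a M² e² + (b / b₁) e⁴` has a solution with `(M, e) ≠ (0, 0)` over `ℝ` and over `ℚ_p`
for every prime `p`. -/
def F (a b : ℤ) : Set ℤ :=
  {b₁ : ℤ | Squarefree b₁ ∧ b₁ ∣ b ∧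
    (∃ N M e : ℝ, (M ≠ 0 ∨ e ≠ 0) ∧
      N ^ 2 = (b₁ : ℝ) * M ^ 4 + (a : ℝ) * M ^ 2 * e ^ 2 + ((b / b₁ : ℤ) : ℝ) * e ^ 4) ∧
    ∀ (p : ℕ) [Fact p.Prime], ∃ N M e : ℚ_[p], (M ≠ 0 ∨ e ≠ 0) ∧
      N ^ 2 = (b₁ : ℚ_[p]) * M ^ 4 + (a : ℚ_[p]) * M ^ 2 * e ^ 2 + ((b / b₁ : ℤ) : ℚ_[p]) * e ^ 4}

/-- the binary logarithm of the number of the elements of `F a b` -/
noncomputable def f (a b : ℤ) : ℕ := Nat.log 2 (F a b).ncard

/-- The statement of the question for `y² = x³ + a x² + b x`: the rank is congruent to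
`f₁ + f₂ - 2` modulo 2, where `f₁ = f a b` and `f₂ = f (-2 a) (a² - 4 b)`. -/
def Q1 (a b : ℤ) : Prop :=
  (Module.finrank ℤ (Eab a b).toAffine.Point : ℤ) ≡ f a b + f (-2 * a) (a ^ 2 - 4 * b) - 2 [ZMOD 2]

/-- `y² = x³ + a x² + b x` is an equation of the curve `y² = x³ + A x + B`: the two curves are
isomorphic over `ℚ` -/
def IsEquation (c : ℤ × ℤ) (a b : ℤ) : Prop :=
  ∃ C : WeierstrassCurve.VariableChange ℚ, C • E c.1 c.2 = Eab a b

/-- The curves of rank zero which have an equation `y² = x³ + a x² + b x`, and for all such equations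
with integers `a`, `b` the statement of the question holds and `f₂ = 0`. -/
def Good : Set (ℤ × ℤ) :=
  {c | Module.finrank ℤ (E c.1 c.2).toAffine.Point = 0 ∧ (∃ a b : ℤ, IsEquation c a b) ∧
    ∀ a b : ℤ, IsEquation c a b → Q1 a b ∧ f (-2 * a) (a ^ 2 - 4 * b) = 0}

/-- the property without the size -/
def Pr (c : ℤ × ℤ) : Prop := 4 * c.1 ^ 3 + 27 * c.2 ^ 2 ≠ 0 ∧
    (∀ p : ℕ, p.Prime → ¬ ((p : ℤ) ^ 4 ∣ c.1 ∧ (p : ℤ) ^ 6 ∣ c.2)) ∧
    (∃ g : ZMod 2 × ZMod 2 →+ (E c.1 c.2).toAffine.Point, Function.Injective g)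

lemma good : Pool.Agent.Y679.Cr.Good Pr := by
  classical
  refine ⟨fun c hc => ⟨?_, ?_⟩, fun H c hc => ?_, Pool.Agent.W672.FK.lowf⟩
  · exact Pool.Agent.Y679.Cr.isMin_of hc.1 hc.2.1
  · exact Pool.Agent.Y679.Cr.full_of (Pool.Agent.W307.RT.tors_iff.2 hc.2.2)
  · unfold Pool.Agent.W307.RT.Cv at hc
    obtain ⟨-, h1, -, -, h2, h3⟩ := mem_filter.1 hc
    exact ⟨h1, h2, Pool.Agent.W307.RT.tors_iff.1 h3⟩

lemma cond_eq (c : ℤ × ℤ) : Pool.Agent.Y679.Cr.cs c = Cond6 c := by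
  unfold Pool.Agent.Y679.Cr.cs Pool.Agent.H925R.Szpiro.condS Cond6
  rw [Pool.Agent.Y679.Cr.D_neg, Int.natAbs_neg]
  refine prod_congr rfl fun p _ => ?_
  by_cases h : (p : ℤ) ∣ c.1
  · rw [if_pos h, if_pos (Int.dvd_neg.2 h)]
  · rw [if_neg h, if_neg fun h' => h (Int.dvd_neg.1 h')]

lemma bdd {g : ℤ × ℤ → ℕ} (hg : Factor g) : Pool.Agent.Y679.Cr.Bdd g :=
  fun c => ⟨(hg c).1, (hg c).2.trans (by norm_num)⟩

lemma Fam_eq (g : ℤ × ℤ → ℕ) (Z : ℕ) : Fam g Z = Pool.Agent.Y679.Cr.Gm Pr g Z := by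
  ext c
  unfold Fam Pool.Agent.Y679.Cr.Gm
  rw [Set.mem_ofPred_eq, Set.mem_ofPred_eq, cond_eq]
  exact ⟨fun h => ⟨⟨h.1, h.2.1, h.2.2.1⟩, h.2.2.2⟩, fun h => ⟨h.1.1, h.1.2.1, h.1.2.2, h.2⟩⟩

lemma good_of {c : ℤ × ℤ} (hD : 4 * c.1 ^ 3 + 27 * c.2 ^ 2 ≠ 0)
    (ht : ∃ f : ZMod 2 × ZMod 2 →+ (E c.1 c.2).toAffine.Point, Function.Injective f)
    (h : Pool.Agent.X257.PS.TQ c) : c ∈ Good := by
  obtain ⟨hT, ⟨a0, b0, C0, hC0⟩, hall⟩ := h
  have hr : Module.finrank ℤ (E c.1 c.2).toAffine.Point = 0 := Nat.le_zero.1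
    (Pool.Agent.Y667.MT.rank_le hD (Pool.Agent.W307.RT.tors_iff.2 ht) hT.1 hT.2.1)
  refine ⟨hr, ⟨a0, b0, C0, hC0⟩, ?_⟩
  rintro a b ⟨C, hC⟩
  obtain ⟨⟨h1, h2⟩, ⟨e⟩⟩ := hall a b C hC
  have h3 : Module.finrank ℤ (Eab a b).toAffine.Point = 0 := by
    rw [← hr]
    exact (LinearEquiv.finrank_eq e.toIntLinearEquiv).symm
  have h4 : f (-2 * a) (a ^ 2 - 4 * b) = 0 := by
    have h5 := Set.ncard_le_ncard h1 (Set.finite_singleton _)
    rw [Set.ncard_singleton] at h5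
    exact Nat.log_eq_zero_iff.2 (Or.inl (lt_of_le_of_lt h5 (by norm_num)))
  refine ⟨?_, h4⟩
  have h5 : Even (f a b) := h2
  unfold Q1
  rw [h3, h4]
  obtain ⟨k, hk⟩ := h5
  rw [hk]
  push_cast
  rw [Int.modEq_iff_dvd]
  exact ⟨k - 1, by ring⟩

/-- **Theorem.** Order the elliptic curves over `ℚ` with full rational 2-torsion by the conductor
(times an arbitrary factor as in `Factor`), with no bound on the height. There are finitely many
curves of size at most `Z` and their number tends to infinity with `Z`. There is a `δ > 0`, not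
depending on the factor, such that for all large `Z` for a proportion at least `δ` of the curves of
size at most `Z` the rank is zero, and the statement of the question holds for every equation
`y² = x³ + a x² + b x` with integers `a`, `b`; moreover `f₂ = 0` for all these equations. -/
theorem result :
    (∀ g : ℤ × ℤ → ℕ, Factor g →
      (∀ Z : ℕ, (Fam g Z).Finite) ∧ Tendsto (fun Z : ℕ => (Fam g Z).ncard) atTop atTop) ∧
    ∃ δ : ℝ, 0 < δ ∧ ∀ g : ℤ × ℤ → ℕ, Factor g →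
      ∀ᶠ Z : ℕ in atTop, δ ≤ proportion g Good Z := by
  classical
  refine ⟨fun g hg => ⟨fun Z => ?_, ?_⟩, ?_⟩
  · rw [Fam_eq]
    exact Pool.Agent.Y679.Cr.Gm_fin good (bdd hg) Z
  · simp only [Fam_eq]
    exact Pool.Agent.Y679.Cr.Gm_tendsto good (bdd hg)
  · obtain ⟨δ, hδ, h⟩ := Pool.Agent.Y679.Cr.pos good (T := Pool.Agent.X257.PS.TQ) (by
      obtain ⟨c, hc, H0, h⟩ := Pool.Agent.X257.PS.main
      refine ⟨c, hc, H0, fun H hH => ⟨_, fun k hk => ?_, h H hH⟩⟩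
      exact mem_filter.1 (mem_coe.1 hk))
    refine ⟨δ, hδ, fun g hg => ?_⟩
    filter_upwards [h g (bdd hg)] with Z hZ
    refine hZ.trans ?_
    unfold proportion
    rw [Fam_eq]
    refine div_le_div_of_nonneg_right (Nat.cast_le.2 (Set.ncard_le_ncard ?_
      ((Pool.Agent.Y679.Cr.Gm_fin good (bdd hg) Z).subset Set.inter_subset_left)))
      (Nat.cast_nonneg _)
    rintro k ⟨h1, h2⟩
    exact ⟨h1, good_of h1.1.1 h1.1.2.2 h2⟩

end Pool.Agent.Results.MP_e2b281_nt.ConductorOrdering
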