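import Mathlib
import Pool.Agent.H15SP.Four

/-!
# The parity for the isogeny classes of the curves with a rational cyclic subgroup of order four

For a positive proportion of the elliptic curves over `ℚ` with a rational cyclic subgroup of order
four, ordered by height, all the curves linked with it by 2-isogenies over `ℚ` and all their
equations `y² = x³ + a x² + b x` satisfy the statement of the question: the rank `r` is zero and the
2-Selmer rank `s` is even. Moreover `s` is close to `(3 / 2) log log Z`, in particular it is unbounded.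
-/

set_option autoImplicit false

namespace Pool.Agent.Results.MP_e2b281_nt.CyclicFourSelmerRank

open Filter Topology

/-- the curve `y² = x³ + A x + B` over `ℚ` -/
def E (A B : ℤ) : WeierstrassCurve ℚ := ⟨0, 0, 0, (A : ℚ), (B : ℚ)⟩

/-- `y² = x³ + A x + B` is nonsingular and minimal: there is no prime `p` with `p⁴ ∣ A` and
`p⁶ ∣ B`. Every elliptic curve over `ℚ` is isomorphic to `E A B` for exactly one such pair. -/
def Minimal (A B : ℤ) : Prop :=
  4 * A ^ 3 + 27 * B ^ 2 ≠ 0 ∧ ∀ p : ℕ, p.Prime → ¬ ((p : ℤ) ^ 4 ∣ A ∧ (p : ℤ) ^ 6 ∣ B)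

/-- the naive height `max (4 |A|³) (27 B²)` of `y² = x³ + A x + B` is at most `Z` -/
def HeightLe (A B : ℤ) (Z : ℕ) : Prop := 4 * |A| ^ 3 ≤ Z ∧ 27 * B ^ 2 ≤ Z

/-- the coefficient `A = N² - 3 e²`, `t = (e, N)` -/
def cA (t : ℤ × ℤ) : ℤ := t.2 ^ 2 - 3 * t.1 ^ 2

/-- the coefficient `B = 2 e³ - N² e`, `t = (e, N)` -/
def cB (t : ℤ × ℤ) : ℤ := 2 * t.1 ^ 3 - t.2 ^ 2 * t.1

/-- The family: the pairs `t = (e, N)` such that `y² = x³ + A x + B`, `A = cA t`, `B = cB t`, is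
a minimal nonsingular equation of height at most `Z`: the elliptic curves over `ℚ` of height at most
`Z`, up to isomorphism, together with a rational cyclic subgroup of order four (see `marked`). -/
def Fam (Z : ℕ) : Set (ℤ × ℤ) := {t | Minimal (cA t) (cB t) ∧ HeightLe (cA t) (cB t) Z}

/-- `A = cA (e, N)` and `B = cB (e, N)` if and only if `e` is a root of `x³ + A x + B` and
`3 e² + A = N²`. (Then the points with abscissa `e + N` have order four, their double is `(e, 0)`.) -/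
theorem marked (A B e N : ℤ) :
    (A = cA (e, N) ∧ B = cB (e, N)) ↔ (e ^ 3 + A * e + B = 0 ∧ 3 * e ^ 2 + A = N ^ 2) := by
  unfold cA cB
  constructor
  · rintro ⟨rfl, rfl⟩
    constructor <;> ring
  · rintro ⟨h1, h2⟩
    have hA : A = N ^ 2 - 3 * e ^ 2 := by linarith
    refine ⟨hA, ?_⟩
    rw [hA] at h1
    linarith

/-- the proportion of the elements of `S` in the finite set `F` -/
noncomputable def proportion (F S : Set (ℤ × ℤ)) : ℝ := ((F ∩ S).ncard : ℝ) / F.ncard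

/-- the curve `y² = x³ + a x² + b x` over `ℚ` -/
def Eab (a b : ℤ) : WeierstrassCurve ℚ := ⟨0, (a : ℚ), 0, (b : ℚ), 0⟩

/-- the rank -/
noncomputable def rank (W : WeierstrassCurve ℚ) : ℕ := Module.finrank ℤ W.toAffine.Point

/-- The squarefree integers `b₁ ∣ b` (of both signs) for which
`N² = b₁ M⁴ + a M² e² + (b / b₁) e⁴` has a solution with `(M, e) ≠ (0, 0)` over `ℝ` and over `ℚ_p`
for every prime `p`. -/
def F (a b : ℤ) : Set ℤ :=
  {b₁ : ℤ | Squarefree b₁ ∧ b₁ ∣ b ∧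
    (∃ N M e : ℝ, (M ≠ 0 ∨ e ≠ 0) ∧
      N ^ 2 = (b₁ : ℝ) * M ^ 4 + (a : ℝ) * M ^ 2 * e ^ 2 + ((b / b₁ : ℤ) : ℝ) * e ^ 4) ∧
    ∀ (p : ℕ) [Fact p.Prime], ∃ N M e : ℚ_[p], (M ≠ 0 ∨ e ≠ 0) ∧
      N ^ 2 = (b₁ : ℚ_[p]) * M ^ 4 + (a : ℚ_[p]) * M ^ 2 * e ^ 2 + ((b / b₁ : ℤ) : ℚ_[p]) * e ^ 4}

/-- the binary logarithm of the number of the elements of `F a b` -/
noncomputable def f (a b : ℤ) : ℕ := Nat.log 2 (F a b).ncard

/-- the 2-Selmer rank `s = f₁ + f₂ - 2` of `y² = x³ + a x² + b x`, where `f₁ = f a b` and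
`f₂ = f a' b'`, `a' = -2 a`, `b' = a² - 4 b` -/
noncomputable def s (a b : ℤ) : ℤ := f a b + f (-2 * a) (a ^ 2 - 4 * b) - 2

/-- The statement of the question for `y² = x³ + a x² + b x`: the rank is congruent to
`f₁ + f₂ - 2` modulo 2. -/
def Q1 (a b : ℤ) : Prop := (rank (Eab a b) : ℤ) ≡ s a b [ZMOD 2]

/-- `y² = x³ + a x² + b x` is an equation of the curve `y² = x³ + A x + B`: the two curves are
isomorphic over `ℚ` -/
def IsEquation (A B a b : ℤ) : Prop :=
  ∃ C : WeierstrassCurve.VariableChange ℚ, C • E A B = Eab a b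

/-- A step from the equation `y² = x³ + a x² + b x`, `p = (a, b)`, to the equation
`y² = x³ + c x² + d x`, `q = (c, d)`: the two curves are isomorphic over `ℚ`, or
`(c, d) = (-2 a, a² - 4 b)` is the 2-isogenous equation. -/
def Step (p q : ℤ × ℤ) : Prop :=
  (∃ C : WeierstrassCurve.VariableChange ℚ, C • Eab p.1 p.2 = Eab q.1 q.2) ∨
    q = (-2 * p.1, p.1 ^ 2 - 4 * p.2)

/-- `q` is reached from `p` by finitely many steps. The equations linked with an equation of a curve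
are the equations `y² = x³ + a x² + b x` with integers `a`, `b` of all the curves obtained from it by
chains of 2-isogenies over `ℚ`. -/
def Linked (p q : ℤ × ℤ) : Prop := Relation.ReflTransGen Step p q

/-- The curve `y² = x³ + a x² + b x` has rank zero, the statement of the question holds for this
equation, `f₁ = 0` or `f₂ = 0`, and the 2-Selmer rank `s` satisfies `|s - (3 / 2) L| ≤ δ L`,
`L = log log Z`. -/
def Holds (δ : ℝ) (Z : ℕ) (a b : ℤ) : Prop :=
  rank (Eab a b) = 0 ∧ Q1 a b ∧ (f a b = 0 ∨ f (-2 * a) (a ^ 2 - 4 * b) = 0) ∧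
    |(s a b : ℝ) - 3 / 2 * Real.log (Real.log Z)| ≤ δ * Real.log (Real.log Z)

/-- The curve `y² = x³ + A x + B` has an equation `y² = x³ + a x² + b x` with integers `a`, `b`, and
`Holds` is true for all the equations linked with such an equation, that is for every equation
`y² = x³ + a x² + b x` of every curve which is linked with `y² = x³ + A x + B` by 2-isogenies. -/
def Good (δ : ℝ) (Z : ℕ) (A B : ℤ) : Prop :=
  (∃ a b : ℤ, IsEquation A B a b) ∧
    ∀ a b : ℤ, IsEquation A B a b → ∀ q : ℤ × ℤ, Linked (a, b) q → Holds δ Z q.1 q.2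

section proof

open Pool.Agent.H15SP (Ok LZ UZ lo hi four Fht Hb Cc fht_fin Mn mn_minimal disc_iff)

lemma fam_eq (Z : ℕ) : Fam Z = {t | Fht (4, 27) Z t ∧ Mn t} := by
  ext t
  unfold Fam Minimal HeightLe Fht Hb
  rw [Set.mem_ofPred_eq, Set.mem_ofPred_eq]
  have h := disc_iff t.1 t.2
  have hm : Mn t ↔ ∀ p : ℕ, p.Prime → ¬ ((p : ℤ) ^ 4 ∣ cA t ∧ (p : ℤ) ^ 6 ∣ cB t) := mn_minimal t
  constructor
  · rintro ⟨⟨h1, h4⟩, h2, h3⟩
    refine ⟨⟨⟨?_, ?_⟩, h.1 h1⟩, hm.2 h4⟩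
    · change ((4 : ℕ) : ℤ) * |cA t| ^ 3 ≤ Z
      exact_mod_cast h2
    · change ((27 : ℕ) : ℤ) * cB t ^ 2 ≤ Z
      exact_mod_cast h3
  · rintro ⟨⟨⟨h2, h3⟩, h1⟩, h4⟩
    refine ⟨⟨h.2 h1, hm.1 h4⟩, ?_, ?_⟩
    · have h2' : ((4 : ℕ) : ℤ) * |cA t| ^ 3 ≤ Z := h2
      exact_mod_cast h2'
    · have h3' : ((27 : ℕ) : ℤ) * cB t ^ 2 ≤ Z := h3
      exact_mod_cast h3'

lemma cc : Cc (4, 27) := ⟨by norm_num, le_rfl, by norm_num, le_rfl⟩

lemma fam_fin (Z : ℕ) : (Fam Z).Finite := by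
  refine (fht_fin cc Z).subset ?_
  rw [fam_eq]
  exact fun t ht => ht.1

/-- The number of the curves of the family tends to infinity. -/
lemma tendsto_fam : Tendsto (fun Z : ℕ => (Fam Z).ncard) atTop atTop := by
  classical
  rw [tendsto_atTop_atTop]
  intro n
  refine ⟨27 * (n + 2) ^ 6, fun Z hZ => ?_⟩
  have h1 : ((fun m : ℕ => ((1 : ℤ), (m : ℤ))) '' (Finset.Icc 2 (n + 1) : Set ℕ)) ⊆ Fam Z := by
    rintro _ ⟨m, hm, rfl⟩
    rw [Finset.mem_coe, Finset.mem_Icc] at hm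
    have hm1 : (2 : ℤ) ≤ m := by exact_mod_cast hm.1
    have hm2 : (m : ℤ) ≤ n + 1 := by exact_mod_cast hm.2
    have hZ' : 27 * ((n : ℤ) + 2) ^ 6 ≤ Z := by exact_mod_cast hZ
    have hA : cA ((1 : ℤ), (m : ℤ)) = (m : ℤ) ^ 2 - 3 := by unfold cA; ring
    have hB : cB ((1 : ℤ), (m : ℤ)) = 2 - (m : ℤ) ^ 2 := by unfold cB; ring
    have hk : (m : ℤ) ^ 2 ≤ ((n : ℤ) + 2) ^ 2 := by nlinarith
    have hk4 : 4 ≤ (m : ℤ) ^ 2 := by nlinarith
    obtain ⟨q, hq⟩ : ∃ q : ℤ, q = ((n : ℤ) + 2) ^ 2 := ⟨_, rfl⟩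
    have hq3 : q ^ 3 = ((n : ℤ) + 2) ^ 6 := by rw [hq]; ring
    rw [← hq] at hk
    rw [← hq3] at hZ'
    have hq4 : 4 ≤ q := hk4.trans hk
    refine ⟨⟨?_, ?_⟩, ?_, ?_⟩
    · rw [hA, hB]
      have e : 4 * ((m : ℤ) ^ 2 - 3) ^ 3 + 27 * (2 - (m : ℤ) ^ 2) ^ 2 =
          ((m : ℤ) ^ 2) ^ 2 * (4 * (m : ℤ) ^ 2 - 9) := by ring
      rw [e]
      exact mul_ne_zero (pow_ne_zero 2 (by omega)) (by omega)
    · intro p hp hd
      rw [hA, hB] at hd
      have h2 : (p : ℤ) ^ 4 ∣ 1 := by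
        have h3 : (p : ℤ) ^ 4 ∣ 2 - (m : ℤ) ^ 2 := (pow_dvd_pow _ (by norm_num)).trans hd.2
        have h4 := dvd_add hd.1 h3
        have e : (m : ℤ) ^ 2 - 3 + (2 - (m : ℤ) ^ 2) = -1 := by ring
        rw [e] at h4
        exact (dvd_neg.1 h4)
      have h5 := Int.eq_one_of_dvd_one (by positivity) h2
      have h6 : 2 ≤ (p : ℤ) := by exact_mod_cast hp.two_le
      have h7 : (2 : ℤ) ^ 4 ≤ (p : ℤ) ^ 4 := pow_le_pow_left₀ (by norm_num) h6 4
      rw [h5] at h7
      norm_num at h7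
    · rw [hA, abs_of_nonneg (by linarith)]
      have h8 : ((m : ℤ) ^ 2 - 3) ^ 3 ≤ q ^ 3 := pow_le_pow_left₀ (by linarith) (by linarith) 3
      have h9 : 0 ≤ q ^ 3 := by positivity
      linarith
    · rw [hB]
      have h8 : (2 - (m : ℤ) ^ 2) ^ 2 ≤ q ^ 2 := by
        have : (2 - (m : ℤ) ^ 2) ^ 2 = ((m : ℤ) ^ 2 - 2) ^ 2 := by ring
        rw [this]
        exact pow_le_pow_left₀ (by linarith) (by linarith) 2
      have h9 : q ^ 2 ≤ q ^ 3 := by nlinarith [sq_nonneg q]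
      linarith
  have h2 := Set.ncard_le_ncard h1 (fam_fin Z)
  rw [Set.ncard_image_of_injective _ (fun m m' h => by
    have h0 : (m : ℤ) = (m' : ℤ) := congrArg Prod.snd h
    exact_mod_cast h0), Set.ncard_coe_finset, Nat.card_Icc] at h2
  omega

/-- the conclusion for one equation -/
lemma holds_of {δ : ℝ} {Z : ℕ} {a b : ℤ} (h : Ok (lo δ Z) (hi δ Z) a b) : Holds δ Z a b := by
  obtain ⟨hr, n, hn, he, h0, h1, h2⟩ := h
  have hr' : rank (Eab a b) = 0 := hr
  have hn' : f a b + f (-2 * a) (a ^ 2 - 4 * b) = n := hn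
  have hs : s a b = (n : ℤ) - 2 := by
    unfold s
    rw [← hn']
    push_cast
    rfl
  refine ⟨hr, ?_, h0, ?_⟩
  · unfold Q1
    rw [hr', hs]
    obtain ⟨k, hk⟩ := he
    rw [hk, Int.modEq_iff_dvd]
    push_cast
    exact ⟨k - 1, by ring⟩
  · rw [hs]
    unfold lo at h1
    unfold hi at h2
    rw [abs_le]
    push_cast
    constructor <;> linarith

lemma good_of {δ : ℝ} {Z : ℕ} {A B : ℤ} (h : LZ (lo δ Z) (hi δ Z) A B) : Good δ Z A B := by
  obtain ⟨⟨a0, b0, C0, hC0⟩, hall⟩ := h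
  refine ⟨⟨a0, b0, C0, hC0⟩, ?_⟩
  rintro a b ⟨C, hC⟩ q hq
  exact holds_of (hall a b C hC q hq)

end proof

/-- **Theorem.** There are finitely many elliptic curves over `ℚ` of height at most `Z` with a marked
rational cyclic subgroup of order four, their number tends to infinity with `Z`, and there is a
constant `c > 0` such that for every `δ > 0` and all large `Z` the proportion of the good ones among
them is at least `c`: for every equation `y² = x³ + a x² + b x` with integers `a`, `b` of the curve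
and of all the curves linked with it by 2-isogenies over `ℚ`, the rank is `r = 0`, the statement
`r ≡ s` modulo 2 of the question holds, one of `f₁`, `f₂` is zero, and the 2-Selmer rank satisfies
`|s - (3 / 2) log log Z| ≤ δ log log Z`. -/
theorem result :
    (∀ Z : ℕ, (Fam Z).Finite) ∧ Tendsto (fun Z : ℕ => (Fam Z).ncard) atTop atTop ∧
    ∃ c : ℝ, 0 < c ∧ ∀ δ : ℝ, 0 < δ → ∀ᶠ Z : ℕ in atTop,
      c ≤ proportion (Fam Z) {t | Good δ Z (cA t) (cB t)} := by
  classical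
  refine ⟨fam_fin, tendsto_fam, ?_⟩
  obtain ⟨c, hc, h⟩ := Pool.Agent.H15SP.four
  refine ⟨c, hc, fun δ hδ => ?_⟩
  obtain ⟨Y0, g⟩ := h δ hδ
  filter_upwards [eventually_ge_atTop Y0, tendsto_fam.eventually_ge_atTop 1] with Z e1 e2
  have hfin := fam_fin Z
  have hf2 : (Fam Z ∩ {t | Good δ Z (cA t) (cB t)}).Finite := hfin.subset Set.inter_subset_left
  obtain ⟨K, hK⟩ : ∃ K, K = hfin.toFinset := ⟨_, rfl⟩
  have hK' : ∀ t, t ∈ K ↔ Pool.Agent.H15SP.Fht (4, 27) Z t ∧ Pool.Agent.H15SP.Mn t := fun t => by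
    rw [hK, Set.Finite.mem_toFinset, fam_eq]
    rfl
  have h3 := g Z e1 K (K.filter (fun t => Pool.Agent.H15SP.UZ (Pool.Agent.H15SP.lo δ Z)
    (Pool.Agent.H15SP.hi δ Z) t)) hK' (fun t => by rw [Finset.mem_filter])
  have hKc : (K.card : ℝ) = (Fam Z).ncard := by
    rw [hK, ← Set.ncard_eq_toFinset_card _ hfin]
  rw [hKc] at h3
  unfold proportion
  rw [le_div_iff₀ (by exact_mod_cast (by omega : 0 < (Fam Z).ncard))]
  refine h3.trans (Nat.cast_le.2 ?_)
  rw [← Set.ncard_coe_finset]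
  refine Set.ncard_le_ncard (fun t ht => ?_) hf2
  rw [Finset.mem_coe, Finset.mem_filter, hK, Set.Finite.mem_toFinset] at ht
  exact ⟨ht.1, good_of ht.2⟩

end Pool.Agent.Results.MP_e2b281_nt.CyclicFourSelmerRank
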