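import Mathlib
import Pool.Agent.H15SP.Full
import Pool.Agent.W672.FK.Lowf
import Pool.Agent.W307.RT.Tors

/-!
# The parity for the isogeny classes of the curves with full rational 2-torsion

For a positive proportion of the elliptic curves over `ℚ` with full rational 2-torsion, ordered by
height, all the curves linked with it by 2-isogenies over `ℚ` and all their equations
`y² = x³ + a x² + b x` satisfy the statement of the question: the rank `r` is zero and the 2-Selmer
rank `s` is even. Moreover `s` is close to `(3 / 2) log log Z`, in particular it is unbounded.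
-/

set_option autoImplicit false

namespace Pool.Agent.Results.MP_e2b281_nt.FullTorsionSelmerRank

open Filter Topology

/-- the curve `y² = x³ + A x + B` over `ℚ` -/
def E (A B : ℤ) : WeierstrassCurve ℚ := ⟨0, 0, 0, (A : ℚ), (B : ℚ)⟩

/-- `y² = x³ + A x + B` is nonsingular and minimal: there is no prime `p` with `p⁴ ∣ A` and
`p⁶ ∣ B`. Every elliptic curve over `ℚ` is isomorphic to `E A B` for exactly one such pair. -/
def Minimal (A B : ℤ) : Prop :=
  4 * A ^ 3 + 27 * B ^ 2 ≠ 0 ∧ ∀ p : ℕ, p.Prime → ¬ ((p : ℤ) ^ 4 ∣ A ∧ (p : ℤ) ^ 6 ∣ B)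

/-- the naive height `max (4 |A|³) (27 B²)` of `y² = x³ + A x + B` is at most `Z` -/
def HeightLe (A B : ℤ) (Z : ℕ) : Prop := 4 * |A| ^ 3 ≤ Z ∧ 27 * B ^ 2 ≤ Z

/-- The family: the elliptic curves `y² = x³ + A x + B` over `ℚ`, `c = (A, B)`, up to
isomorphism, of height at most `Z`, such that `Z/2 x Z/2` embeds in the group of the rational
points. -/
def Fam (Z : ℕ) : Set (ℤ × ℤ) :=
  {c | Minimal c.1 c.2 ∧
    (∃ f : ZMod 2 × ZMod 2 →+ (E c.1 c.2).toAffine.Point, Function.Injective f) ∧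
    HeightLe c.1 c.2 Z}

/-- the proportion of the elements of `S` in the finite set `F` -/
noncomputable def proportion (F S : Set (ℤ × ℤ)) : ℝ := ((F ∩ S).ncard : ℝ) / F.ncard

/-- the curve `y² = x³ + a x² + b x` over `ℚ` -/
def Eab (a b : ℤ) : WeierstrassCurve ℚ := ⟨0, (a : ℚ), 0, (b : ℚ), 0⟩

/-- the rank -/
noncomputable def rank (W : WeierstrassCurve ℚ) : ℕ := Module.finrank ℤ W.toAffine.Point

/-- The squarefree integers `b₁ ∣ b` (of both signs) for which
`N² = b₁ M⁴ + a M² e² + (b / b₁) e⁴` has a solution with `(M, e) ≠ (0, 0)` over `ℝ` and over `ℚ_p`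
for every prime `p`. -/
def F (a b : ℤ) : Set ℤ :=
  {b₁ : ℤ | Squarefree b₁ ∧ b₁ ∣ b ∧
    (∃ N M e : ℝ, (M ≠ 0 ∨ e ≠ 0) ∧
      N ^ 2 = (b₁ : ℝ) * M ^ 4 + (a : ℝ) * M ^ 2 * e ^ 2 + ((b / b₁ : ℤ) : ℝ) * e ^ 4) ∧
    ∀ (p : ℕ) [Fact p.Prime], ∃ N M e : ℚ_[p], (M ≠ 0 ∨ e ≠ 0) ∧
      N ^ 2 = (b₁ : ℚ_[p]) * M ^ 4 + (a : ℚ_[p]) * M ^ 2 * e ^ 2 + ((b / b₁ : ℤ) : ℚ_[p]) * e ^ 4}

/-- the binary logarithm of the number of the elements of `F a b` -/
noncomputable def f (a b : ℤ) : ℕ := Nat.log 2 (F a b).ncard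

/-- the 2-Selmer rank `s = f₁ + f₂ - 2` of `y² = x³ + a x² + b x`, where `f₁ = f a b` and
`f₂ = f a' b'`, `a' = -2 a`, `b' = a² - 4 b` -/
noncomputable def s (a b : ℤ) : ℤ := f a b + f (-2 * a) (a ^ 2 - 4 * b) - 2

/-- The statement of the question for `y² = x³ + a x² + b x`: the rank is congruent to
`f₁ + f₂ - 2` modulo 2. -/
def Q1 (a b : ℤ) : Prop := (rank (Eab a b) : ℤ) ≡ s a b [ZMOD 2]

/-- `y² = x³ + a x² + b x` is an equation of the curve `y² = x³ + A x + B`: the two curves are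
isomorphic over `ℚ` -/
def IsEquation (A B a b : ℤ) : Prop :=
  ∃ C : WeierstrassCurve.VariableChange ℚ, C • E A B = Eab a b

/-- A step from the equation `y² = x³ + a x² + b x`, `p = (a, b)`, to the equation
`y² = x³ + c x² + d x`, `q = (c, d)`: the two curves are isomorphic over `ℚ`, or
`(c, d) = (-2 a, a² - 4 b)` is the 2-isogenous equation. -/
def Step (p q : ℤ × ℤ) : Prop :=
  (∃ C : WeierstrassCurve.VariableChange ℚ, C • Eab p.1 p.2 = Eab q.1 q.2) ∨
    q = (-2 * p.1, p.1 ^ 2 - 4 * p.2)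

/-- `q` is reached from `p` by finitely many steps. The equations linked with an equation of a curve
are the equations `y² = x³ + a x² + b x` with integers `a`, `b` of all the curves obtained from it by
chains of 2-isogenies over `ℚ`. -/
def Linked (p q : ℤ × ℤ) : Prop := Relation.ReflTransGen Step p q

/-- The curve `y² = x³ + a x² + b x` has rank zero, the statement of the question holds for this
equation, `f₁ = 0` or `f₂ = 0`, and the 2-Selmer rank `s` satisfies `|s - (3 / 2) L| ≤ δ L`,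
`L = log log Z`. -/
def Holds (δ : ℝ) (Z : ℕ) (a b : ℤ) : Prop :=
  rank (Eab a b) = 0 ∧ Q1 a b ∧ (f a b = 0 ∨ f (-2 * a) (a ^ 2 - 4 * b) = 0) ∧
    |(s a b : ℝ) - 3 / 2 * Real.log (Real.log Z)| ≤ δ * Real.log (Real.log Z)

/-- The curve `y² = x³ + A x + B` has an equation `y² = x³ + a x² + b x` with integers `a`, `b`, and
`Holds` is true for all the equations linked with such an equation, that is for every equation
`y² = x³ + a x² + b x` of every curve which is linked with `y² = x³ + A x + B` by 2-isogenies. -/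
def Good (δ : ℝ) (Z : ℕ) (A B : ℤ) : Prop :=
  (∃ a b : ℤ, IsEquation A B a b) ∧
    ∀ a b : ℤ, IsEquation A B a b → ∀ q : ℤ × ℤ, Linked (a, b) q → Holds δ Z q.1 q.2

section proof

open Pool.Agent.H15SP (Ok LZ TZ lo hi full)

lemma fam_eq (H : ℕ) : Fam H = (Pool.Agent.W307.RT.Cv 2 H : Set (ℤ × ℤ)) := by
  classical
  ext c
  have h : Pool.Agent.W307.RT.HasT 2 (Pool.Agent.W307.RT.Sh c.1 c.2) ↔
    ∃ f : ZMod 2 × ZMod 2 →+ (E c.1 c.2).toAffine.Point, Function.Injective f :=
    Pool.Agent.W307.RT.tors_iff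
  unfold Fam Minimal HeightLe Pool.Agent.W307.RT.Cv
  rw [Set.mem_ofPred_eq, Finset.mem_coe, Finset.mem_filter, h, Finset.mem_product, Finset.mem_Icc,
    Finset.mem_Icc]
  constructor
  · rintro ⟨⟨h1, h2⟩, h3, h4, h5⟩
    refine ⟨⟨?_, ?_⟩, h1, h4, h5, h2, h3⟩
    · rw [← abs_le]
      have h0 := abs_nonneg c.1
      rcases eq_or_lt_of_le h0 with h6 | h6
      · rw [← h6]; positivity
      · have : 1 ≤ |c.1| := h6
        nlinarith [mul_nonneg h0 h0, mul_self_nonneg (|c.1| - 1)]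
    · rw [← abs_le]
      have h0 := abs_nonneg c.2
      rw [← sq_abs] at h5
      rcases eq_or_lt_of_le h0 with h6 | h6
      · rw [← h6]; positivity
      · have : 1 ≤ |c.2| := h6
        nlinarith
  · rintro ⟨-, h1, h4, h5, h2, h3⟩
    exact ⟨⟨h1, h2⟩, h3, h4, h5⟩

/-- The number of the curves of the family tends to infinity. -/
lemma tendsto_fam : Tendsto (fun Z : ℕ => (Fam Z).ncard) atTop atTop := by
  simp only [fam_eq, Set.ncard_coe_finset]
  exact Pool.Agent.W307.RT.tendsto_of_low Pool.Agent.W672.FK.lowf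

/-- the conclusion for one equation -/
lemma holds_of {δ : ℝ} {Z : ℕ} {a b : ℤ} (h : Ok (lo δ Z) (hi δ Z) a b) : Holds δ Z a b := by
  obtain ⟨hr, n, hn, he, h0, h1, h2⟩ := h
  have hr' : rank (Eab a b) = 0 := hr
  have hn' : f a b + f (-2 * a) (a ^ 2 - 4 * b) = n := hn
  have hs : s a b = (n : ℤ) - 2 := by
    unfold s
    rw [← hn']
    push_cast
    rfl
  refine ⟨hr, ?_, h0, ?_⟩
  · unfold Q1
    rw [hr', hs]
    obtain ⟨k, hk⟩ := he
    rw [hk, Int.modEq_iff_dvd]
    push_cast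
    exact ⟨k - 1, by ring⟩
  · rw [hs]
    unfold lo at h1
    unfold hi at h2
    rw [abs_le]
    push_cast
    constructor <;> linarith

lemma good_of {δ : ℝ} {Z : ℕ} {A B : ℤ} (h : LZ (lo δ Z) (hi δ Z) A B) : Good δ Z A B := by
  obtain ⟨⟨a0, b0, C0, hC0⟩, hall⟩ := h
  refine ⟨⟨a0, b0, C0, hC0⟩, ?_⟩
  rintro a b ⟨C, hC⟩ q hq
  exact holds_of (hall a b C hC q hq)

end proof

/-- **Theorem.** There are finitely many elliptic curves over `ℚ` with full rational 2-torsion and
height at most `Z`, their number tends to infinity with `Z`, and there is a constant `c > 0` such that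
for every `δ > 0` and all large `Z` the proportion of the good curves among them is at least `c`: for
every equation `y² = x³ + a x² + b x` with integers `a`, `b` of the curve and of all the curves linked
with it by 2-isogenies over `ℚ`, the rank is `r = 0`, the statement `r ≡ s` modulo 2 of the question
holds, one of `f₁`, `f₂` is zero, and the 2-Selmer rank satisfies
`|s - (3 / 2) log log Z| ≤ δ log log Z`. -/
theorem result :
    (∀ Z : ℕ, (Fam Z).Finite) ∧ Tendsto (fun Z : ℕ => (Fam Z).ncard) atTop atTop ∧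
    ∃ c : ℝ, 0 < c ∧ ∀ δ : ℝ, 0 < δ → ∀ᶠ Z : ℕ in atTop,
      c ≤ proportion (Fam Z) {t | Good δ Z t.1 t.2} := by
  classical
  have hfin : ∀ Z : ℕ, (Fam Z).Finite := fun Z => by
    rw [fam_eq]
    exact Finset.finite_toSet _
  refine ⟨hfin, tendsto_fam, ?_⟩
  obtain ⟨c, hc, h⟩ := Pool.Agent.H15SP.full
  refine ⟨c, hc, fun δ hδ => ?_⟩
  obtain ⟨H0, g⟩ := h δ hδ
  filter_upwards [eventually_ge_atTop H0, tendsto_fam.eventually_ge_atTop 1] with Z e1 e2
  have hf2 : (Fam Z ∩ {t | Good δ Z t.1 t.2}).Finite := (hfin Z).subset Set.inter_subset_left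
  unfold proportion
  rw [le_div_iff₀ (by exact_mod_cast (by omega : 0 < (Fam Z).ncard))]
  have hcd : (Fam Z).ncard = (Pool.Agent.W307.RT.Cv 2 Z).card := by
    rw [fam_eq, Set.ncard_coe_finset]
  rw [hcd]
  refine (g Z e1).trans (Nat.cast_le.2 ?_)
  rw [← Set.ncard_coe_finset]
  refine Set.ncard_le_ncard (fun t ht => ?_) hf2
  rw [Finset.mem_coe, Finset.mem_filter] at ht
  refine ⟨?_, good_of ht.2⟩
  rw [fam_eq, Finset.mem_coe]
  exact ht.1

end Pool.Agent.Results.MP_e2b281_nt.FullTorsionSelmerRank
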